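import Pool.Agent.W276.GE.Basic

/-!
# GE-LB (helper376 for helper276)

Systems of integral forms which are `x_i ^ d` modulo `2` have no common zero; lower bound for the
number of systems with the trivial fixed point.
-/

set_option autoImplicit false

namespace Pool.Agent.W376.GE

open Pool.Agent.W276.GE

section key

variable {n d : ℕ}

/-- the exponent vector `d e_i` -/
def pw (d : ℕ) (i : Fin n) : E n d := ⟨Pi.single i d, mem_E.2 (by simp)⟩

lemma pw_val (i : Fin n) : (pw d i).1 = Pi.single i d := rfl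

/-- pigeonhole -/
lemma exists_big (hd : 1 ≤ d) (α : E n (n * (d - 1) + 1)) : ∃ j, d ≤ α.1 j := by
  by_contra h
  push Not at h
  have h1 : ∑ i, α.1 i ≤ ∑ _i : Fin n, (d - 1) := Finset.sum_le_sum fun i _ => by
    have := h i
    omega
  rw [E_sum] at h1
  simp at h1

/-- the index of a large exponent -/
noncomputable def jj (hd : 1 ≤ d) (α : E n (n * (d - 1) + 1)) : Fin n := (exists_big hd α).choose

lemma jj_spec (hd : 1 ≤ d) (α : E n (n * (d - 1) + 1)) : d ≤ α.1 (jj hd α) :=
  (exists_big hd α).choose_spec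

lemma d_le (hd : 1 ≤ d) (α : E n (n * (d - 1) + 1)) : d ≤ n * (d - 1) + 1 := by
  have h1 := jj_spec hd α
  have h2 := E_sum α
  have h3 : α.1 (jj hd α) ≤ ∑ i, α.1 i :=
    Finset.single_le_sum (f := α.1) (fun _ _ => Nat.zero_le _) (Finset.mem_univ _)
  omega

lemma sum_sub_single {α : Fin n → ℕ} {j : Fin n} (h : d ≤ α j) :
    ∑ i, (α i - (Pi.single j d : Fin n → ℕ) i) + d = ∑ i, α i := by
  have h1 : ∀ i, α i - (Pi.single j d : Fin n → ℕ) i + (Pi.single j d : Fin n → ℕ) i = α i := by
    intro i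
    by_cases hi : i = j
    · subst hi
      simp only [Pi.single_eq_same]
      omega
    · simp [Pi.single_eq_of_ne hi]
  have h2 : ∑ i, (Pi.single j d : Fin n → ℕ) i = d := by simp
  calc ∑ i, (α i - (Pi.single j d : Fin n → ℕ) i) + d
      = ∑ i, (α i - (Pi.single j d : Fin n → ℕ) i) + ∑ i, (Pi.single j d : Fin n → ℕ) i := by
        rw [h2]
    _ = ∑ i, (α i - (Pi.single j d : Fin n → ℕ) i + (Pi.single j d : Fin n → ℕ) i) := by
        rw [Finset.sum_add_distrib]
    _ = ∑ i, α i := Finset.sum_congr rfl fun i _ => h1 i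

/-- `α - d e_j` -/
noncomputable def gm (hd : 1 ≤ d) (α : E n (n * (d - 1) + 1)) : E n (n * (d - 1) + 1 - d) :=
  ⟨fun i => α.1 i - (Pi.single (jj hd α) d : Fin n → ℕ) i, by
    rw [mem_E]
    have h1 := sum_sub_single (jj_spec hd α)
    have h2 := E_sum α
    omega⟩

/-- the square matrix -/
noncomputable def AA (hd : 1 ≤ d) (F : Fin n → E n d → ℤ) :
    Matrix (E n (n * (d - 1) + 1)) (E n (n * (d - 1) + 1)) ℤ :=
  Matrix.of fun α β => sh (F (jj hd α)) (gm hd α) β

lemma AA_mod (hd : 1 ≤ d) (F : Fin n → E n d → ℤ) (h1 : ∀ i, Odd (F i (pw d i)))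
    (h2 : ∀ i α, α ≠ pw d i → Even (F i α)) :
    (Int.castRingHom (ZMod 2)).mapMatrix (AA hd F) = 1 := by
  ext α β
  rw [RingHom.mapMatrix_apply, Matrix.map_apply, AA, Matrix.of_apply]
  change ((sh (F (jj hd α)) (gm hd α) β : ℤ) : ZMod 2) = _
  have hz : ∀ z : ℤ, Even z → (z : ZMod 2) = 0 := fun z hz => by
    rw [ZMod.intCast_zmod_eq_zero_iff_dvd]
    exact_mod_cast hz.two_dvd
  have ho : ∀ z : ℤ, Odd z → (z : ZMod 2) = 1 := fun z hz => by
    obtain ⟨k, rfl⟩ := hz
    push_cast
    have : (2 : ZMod 2) = 0 := by decide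
    rw [this]
    ring
  by_cases hαβ : α = β
  · subst hαβ
    rw [Matrix.one_apply_eq]
    apply ho
    have hle : ∀ i, (gm hd α).1 i ≤ α.1 i := fun i => Nat.sub_le _ _
    rw [sh, if_pos hle, co]
    have he : (fun i => α.1 i - (gm hd α).1 i) = (pw d (jj hd α)).1 := by
      funext i
      change α.1 i - (α.1 i - (Pi.single (jj hd α) d : Fin n → ℕ) i) =
        (Pi.single (jj hd α) d : Fin n → ℕ) i
      have h3 := jj_spec hd α
      by_cases hi : i = jj hd α
      · rw [hi, Pi.single_eq_same]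
        omega
      · rw [Pi.single_eq_of_ne hi]
        omega
    rw [he, dif_pos (pw d (jj hd α)).2]
    exact h1 _
  · rw [Matrix.one_apply_ne hαβ]
    apply hz
    rw [sh]
    split_ifs with hle
    · rw [co]
      split_ifs with hm
      · apply h2
        intro he
        apply hαβ
        have he' := congrArg Subtype.val he
        simp only at he'
        apply Subtype.ext
        funext i
        have h3 := congrFun he' i
        have h4 := hle i
        have h5 := jj_spec hd α
        change β.1 i - (α.1 i - (Pi.single (jj hd α) d : Fin n → ℕ) i) =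
          (Pi.single (jj hd α) d : Fin n → ℕ) i at h3
        change α.1 i - (Pi.single (jj hd α) d : Fin n → ℕ) i ≤ β.1 i at h4
        by_cases hi : i = jj hd α
        · rw [hi] at h3 h4 ⊢
          rw [Pi.single_eq_same] at h3 h4
          omega
        · rw [Pi.single_eq_of_ne hi] at h3 h4
          omega
      · exact Even.zero
    · exact Even.zero

/-- systems which are `x_i ^ d` modulo `2` have no common zero -/
theorem noZero_of_mod_two (hd : 1 ≤ d) (F : Fin n → E n d → ℤ) (h1 : ∀ i, Odd (F i (pw d i)))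
    (h2 : ∀ i α, α ≠ pw d i → Even (F i α)) : NoZero F := by
  intro x hx
  have hdet : (AA hd F).det ≠ 0 := by
    intro h
    have h3 := congrArg Matrix.det (AA_mod hd F h1 h2)
    rw [← RingHom.map_det, h, Matrix.det_one, map_zero] at h3
    exact zero_ne_one h3
  have hdet' : ((Int.castRingHom ℂ).mapMatrix (AA hd F)).det ≠ 0 := by
    rw [← RingHom.map_det]
    simpa using hdet
  have hv : ((Int.castRingHom ℂ).mapMatrix (AA hd F)).mulVec
      (fun β : E n (n * (d - 1) + 1) => ∏ i, x i ^ β.1 i) = 0 := by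
    funext α
    rw [Matrix.mulVec, dotProduct]
    have h3 := ev_sh (t := n * (d - 1) + 1) (show n * (d - 1) + 1 - d + d = n * (d - 1) + 1 by
      have := d_le hd α
      omega) (F (jj hd α)) (gm hd α) x
    rw [hx, mul_zero] at h3
    rw [Pi.zero_apply, ← h3]
    rfl
  have h0 := Matrix.eq_zero_of_mulVec_eq_zero hdet' hv
  funext i
  have h4 := congrFun h0 (pw (n * (d - 1) + 1) i)
  simp only [Pi.zero_apply, pw_val] at h4
  rw [Finset.prod_eq_zero_iff] at h4
  obtain ⟨k, -, hk⟩ := h4
  by_cases hki : k = i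
  · subst hki
    rw [Pi.single_eq_same] at hk
    exact (pow_eq_zero_iff (by omega)).1 hk
  · rw [Pi.single_eq_of_ne hki, pow_zero] at hk
    exact absurd hk one_ne_zero

lemma ev_e0 {N : ℕ} (g : E (N + 1) d → ℤ) :
    ev g (Pi.single 0 1 : Fin (N + 1) → ℤ) = g (pw d 0) := by
  rw [ev, Finset.sum_eq_single (pw d 0)]
  · have : ∏ i, (Pi.single 0 1 : Fin (N + 1) → ℤ) i ^ (pw d 0 : E (N + 1) d).1 i = 1 := by
      apply Finset.prod_eq_one
      intro i _
      rw [pw_val]
      by_cases hi : i = 0
      · subst hi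
        simp
      · rw [Pi.single_eq_of_ne hi, Pi.single_eq_of_ne hi, pow_zero]
    rw [this]
    simp
  · intro α _ hα
    have : ∃ i, i ≠ 0 ∧ α.1 i ≠ 0 := by
      by_contra h
      push Not at h
      apply hα
      apply Subtype.ext
      funext i
      rw [pw_val]
      by_cases hi : i = 0
      · subst hi
        rw [Pi.single_eq_same]
        have h1 := E_sum α
        rw [Finset.sum_eq_single 0 (fun b _ hb => h b hb) (by simp)] at h1
        exact h1
      · rw [Pi.single_eq_of_ne hi, h i hi]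
    obtain ⟨i, hi, hi'⟩ := this
    have h0 : ∏ i, (Pi.single 0 1 : Fin (N + 1) → ℤ) i ^ α.1 i = 0 := by
      apply Finset.prod_eq_zero (Finset.mem_univ i)
      rw [Pi.single_eq_of_ne hi, zero_pow hi']
    rw [h0, mul_zero]
  · simp

end key

/-! ### counting -/

lemma cnt (H : ℕ) (r : ℤ) (hr : r = 0 ∨ r = 1) :
    H ≤ ((Finset.Icc (-(H : ℤ)) H).filter (fun z => z % 2 = r)).card := by
  obtain ⟨c, hc, hc1, hc2⟩ : ∃ c : ℤ, c % 2 = r ∧ -(H : ℤ) ≤ c ∧ c ≤ -(H : ℤ) + 1 := by
    by_cases h : (-(H : ℤ)) % 2 = r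
    · exact ⟨_, h, le_refl _, by omega⟩
    · exact ⟨-(H : ℤ) + 1, by omega, by omega, le_refl _⟩
  have h1 : ((Finset.range H).image fun k : ℕ => 2 * (k : ℤ) + c).card = H := by
    rw [Finset.card_image_of_injective, Finset.card_range]
    intro a b hab
    simp only at hab
    omega
  rw [← h1]
  conv_rhs => rw [h1]
  apply Finset.card_le_card
  intro z hz
  rw [Finset.mem_image] at hz
  obtain ⟨k, hk, rfl⟩ := hz
  rw [Finset.mem_range] at hk
  rw [Finset.mem_filter, Finset.mem_Icc]
  refine ⟨⟨by omega, by omega⟩, by omega⟩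

/-- the allowed coefficients -/
noncomputable def Ch {N : ℕ} (d H : ℕ) (j : Fin (N + 1)) (α : E (N + 1) d) : Finset ℤ :=
  if α = pw d j then (Finset.Icc (-(H : ℤ)) H).filter (fun z => z % 2 = 1)
  else if j ≠ 0 ∧ α = pw d 0 then {0}
  else (Finset.Icc (-(H : ℤ)) H).filter (fun z => z % 2 = 0)

lemma pw_inj {n d : ℕ} (hd : 1 ≤ d) {i j : Fin n} (h : (pw d i : E n d) = pw d j) : i = j := by
  have h1 := congrFun (congrArg Subtype.val h) i
  rw [pw_val, pw_val, Pi.single_eq_same] at h1
  by_contra hij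
  rw [Pi.single_eq_of_ne hij] at h1
  omega

lemma Ch_card {N d H : ℕ} (j : Fin (N + 1)) (α : E (N + 1) d) :
    (if j ≠ 0 ∧ α = pw d 0 then 1 else H) ≤ (Ch d H j α).card ∨ α = pw d j ∧ j ≠ 0 := by
  by_cases h1 : α = pw d j
  · by_cases hj : j = 0
    · left
      rw [Ch, if_pos h1, if_neg (by tauto)]
      exact cnt H 1 (Or.inr rfl)
    · right
      exact ⟨h1, hj⟩
  · left
    rw [Ch, if_neg h1]
    split_ifs
    · simp
    · exact cnt H 0 (Or.inl rfl)

lemma Ch_card' {N d H : ℕ} (hd : 1 ≤ d) (j : Fin (N + 1)) (α : E (N + 1) d) :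
    (if j ≠ 0 ∧ α = pw d 0 then 1 else H) ≤ (Ch d H j α).card := by
  rcases Ch_card (H := H) j α with h | ⟨h, hj⟩
  · exact h
  · have h0 : α ≠ pw d 0 := by
      intro h'
      rw [h] at h'
      exact hj (pw_inj hd h')
    rw [if_neg (by tauto), Ch, if_pos h]
    exact cnt H 1 (Or.inr rfl)

lemma prod_count {N d H : ℕ} (hd : 1 ≤ d) : H ^ ((N + 1) * Fintype.card (E (N + 1) d) - N) ≤
    ∏ j : Fin (N + 1), ∏ α : E (N + 1) d, (Ch d H j α).card := by
  have h1 : ∏ j : Fin (N + 1), ∏ α : E (N + 1) d, (if j ≠ 0 ∧ α = pw d 0 then 1 else H) ≤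
      ∏ j : Fin (N + 1), ∏ α : E (N + 1) d, (Ch d H j α).card :=
    Finset.prod_le_prod' fun j _ => Finset.prod_le_prod' fun α _ => Ch_card' hd j α
  refine le_trans (le_of_eq ?_) h1
  have hM : 1 ≤ Fintype.card (E (N + 1) d) := Fintype.card_pos_iff.2 ⟨pw d 0⟩
  have h2 : ∀ j : Fin (N + 1), ∏ α : E (N + 1) d, (if j ≠ 0 ∧ α = pw d 0 then 1 else H) =
      if j = 0 then H ^ Fintype.card (E (N + 1) d) else H ^ (Fintype.card (E (N + 1) d) - 1) := by
    intro j
    by_cases hj : j = 0
    · rw [if_pos hj]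
      have : ∀ α : E (N + 1) d, (if j ≠ 0 ∧ α = pw d 0 then 1 else H) = H := by
        intro α
        rw [if_neg (by tauto)]
      simp only [this]
      rw [Finset.prod_const, Finset.card_univ]
    · rw [if_neg hj, ← Finset.mul_prod_erase Finset.univ _ (Finset.mem_univ (pw d 0))]
      rw [if_pos ⟨hj, rfl⟩, one_mul]
      rw [Finset.prod_congr rfl (g := fun _ => H)]
      · rw [Finset.prod_const, Finset.card_erase_of_mem (Finset.mem_univ _), Finset.card_univ]
      · intro α hα
        rw [if_neg]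
        rintro ⟨-, h⟩
        exact (Finset.mem_erase.1 hα).1 h
  simp only [h2]
  rw [Fin.prod_univ_succ, if_pos rfl]
  have h3 : ∀ i : Fin N, (if i.succ = 0 then H ^ Fintype.card (E (N + 1) d) else
      H ^ (Fintype.card (E (N + 1) d) - 1)) = H ^ (Fintype.card (E (N + 1) d) - 1) := by
    intro i
    rw [if_neg (Fin.succ_ne_zero i)]
  simp only [h3]
  rw [Finset.prod_const, Finset.card_univ, Fintype.card_fin, ← pow_mul, ← pow_add]
  congr 1
  obtain ⟨M, hM'⟩ := Nat.exists_eq_add_of_le hM
  rw [hM']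
  have h4 : 1 + M - 1 = M := by omega
  rw [h4]
  have h5 : (N + 1) * (1 + M) = 1 + M + M * N + N := by ring
  rw [h5]
  omega

theorem lb : S_lb := by
  intro N d H hd hH
  set B : Finset (Fin (N + 1) → E (N + 1) d → ℤ) :=
    Fintype.piFinset fun j => Fintype.piFinset fun α => Ch d H j α with hB
  have hcard : B.card = ∏ j : Fin (N + 1), ∏ α : E (N + 1) d, (Ch d H j α).card := by
    rw [hB, Fintype.card_piFinset]
    exact Finset.prod_congr rfl fun j _ => Fintype.card_piFinset _
  refine (prod_count hd).trans ?_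
  rw [← hcard, ← Set.ncard_coe_finset]
  apply Set.ncard_le_ncard
  · intro F hF
    rw [Finset.mem_coe, hB, Fintype.mem_piFinset] at hF
    have hF' : ∀ j α, F j α ∈ Ch d H j α := fun j => Fintype.mem_piFinset.1 (hF j)
    have hodd : ∀ i, Odd (F i (pw d i)) := by
      intro i
      have := hF' i (pw d i)
      rw [Ch, if_pos rfl, Finset.mem_filter] at this
      exact Int.odd_iff.2 this.2
    have heven : ∀ i α, α ≠ pw d i → Even (F i α) := by
      intro i α hα
      have := hF' i α
      rw [Ch, if_neg hα] at this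
      split_ifs at this
      · rw [Finset.mem_singleton] at this
        rw [this]
        exact Even.zero
      · rw [Finset.mem_filter] at this
        exact Int.even_iff.2 this.2
    refine ⟨?_, noZero_of_mod_two hd F hodd heven, ?_⟩
    · rw [mem_Fb]
      intro j
      rw [mem_box]
      intro α
      have := hF' j α
      rw [Ch] at this
      split_ifs at this
      · rw [Finset.mem_filter, Finset.mem_Icc] at this
        exact abs_le.2 this.1
      · rw [Finset.mem_singleton] at this
        rw [this]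
        simp
      · rw [Finset.mem_filter, Finset.mem_Icc] at this
        exact abs_le.2 this.1
    · intro j hj
      rw [ev_e0]
      have := hF' j (pw d 0)
      rw [Ch, if_neg (fun h => hj (pw_inj hd h).symm), if_pos ⟨hj, rfl⟩,
        Finset.mem_singleton] at this
      exact this
  · apply Set.Finite.subset (Fb (N + 1) d H).finite_toSet
    intro F hF
    exact hF.1

end Pool.Agent.W376.GE
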